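import Mathlib
import Pool.Agent.P.MP_f617a8_an.Main

/-! The sine-to-cosine re-expansion operator on `L²(0,π)` is completely nonunitary. -/

open MeasureTheory Set
open scoped Real InnerProductSpace

namespace Pool.Agent.Results.MP_f617a8_an.CNU

theorem memLp_of_continuous (F : ℝ → ℂ) (hF : Continuous F) :
    MemLp F 2 (volume.restrict (Ioo (0 : ℝ) π)) := by
  obtain ⟨C, hC⟩ := (isCompact_Icc (a := (0 : ℝ)) (b := π)).exists_bound_of_continuousOn
    hF.continuousOn
  refine MemLp.of_bound hF.aestronglyMeasurable C ?_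
  filter_upwards [ae_restrict_mem measurableSet_Ioo] with t ht
  exact hC t (Ioo_subset_Icc_self ht)

/-- The class in `L²(0,π)` of a continuous function. -/
noncomputable def toL2 (F : ℝ → ℂ) (hF : Continuous F) :
    Lp ℂ 2 (volume.restrict (Ioo (0 : ℝ) π)) :=
  MemLp.toLp F (memLp_of_continuous F hF)

/-- `s_n(t) = √(2/π) sin (n t)`, `n ≥ 1`. -/
noncomputable def s (n : ℕ+) : Lp ℂ 2 (volume.restrict (Ioo (0 : ℝ) π)) :=
  toL2 (fun t => ((√(2 / π) * Real.sin (n * t) : ℝ) : ℂ)) (by fun_prop)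

/-- `c_n(t) = √(2/π) cos (n t)`, `n ≥ 1`. -/
noncomputable def c (n : ℕ+) : Lp ℂ 2 (volume.restrict (Ioo (0 : ℝ) π)) :=
  toL2 (fun t => ((√(2 / π) * Real.cos (n * t) : ℝ) : ℂ)) (by fun_prop)

/-- The constant function `1`. -/
noncomputable def one : Lp ℂ 2 (volume.restrict (Ioo (0 : ℝ) π)) :=
  toL2 (fun _ => 1) continuous_const

/-- `T` is completely nonunitary: the only closed subspace that reduces `T` and on which `T` acts
as a unitary (isometric and onto) is zero. -/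
def CompletelyNonunitary {E : Type} [NormedAddCommGroup E] [InnerProductSpace ℂ E]
    (T : E →L[ℂ] E) : Prop :=
  ∀ M : Submodule ℂ E, IsClosed (M : Set E) →
    (∀ f ∈ M, T f ∈ M) →
    (∀ f ∈ Submodule.orthogonal M, T f ∈ Submodule.orthogonal M) →
    (∀ f ∈ M, ‖T f‖ = ‖f‖) → (∀ g ∈ M, ∃ f ∈ M, T f = g) → M = ⊥

/-- The bounded operator `P f = ∑ ⟨f, s_n⟩ c_n` is completely nonunitary, and the closed linear
span of the `P^n 1` is all of `L²(0,π)`. -/
theorem result :
    ∃ P : Lp ℂ 2 (volume.restrict (Ioo (0 : ℝ) π)) →L[ℂ]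
        Lp ℂ 2 (volume.restrict (Ioo (0 : ℝ) π)),
      (∀ f, HasSum (fun n : ℕ+ => inner ℂ (s n) f • c n) (P f)) ∧
      CompletelyNonunitary P ∧
      (Submodule.span ℂ (Set.range fun n : ℕ => (P ^ n) one)).topologicalClosure = ⊤ := by
  obtain ⟨P, h1, -, h3, h4⟩ := Pool.Agent.P.MP_f617a8_an.main s c one
    (fun _ => MemLp.coeFn_toLp (memLp_of_continuous _ (by fun_prop)))
    (fun _ => MemLp.coeFn_toLp (memLp_of_continuous _ (by fun_prop)))
    (MemLp.coeFn_toLp (memLp_of_continuous _ continuous_const))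
  refine ⟨P, h1, fun M _ _ _ _ hM => ?_, h4⟩
  rw [Submodule.eq_bot_iff]
  intro f hf
  refine h3 f fun n => ?_
  have : ∃ g ∈ M, (P ^ n) g = f := by
    induction n with
    | zero => exact ⟨f, hf, by simp⟩
    | succ n ih =>
      obtain ⟨g, hg, hg'⟩ := ih
      obtain ⟨g', hg1, rfl⟩ := hM g hg
      exact ⟨g', hg1, by rw [pow_succ, mul_apply_eq_comp, hg']⟩
  obtain ⟨g, -, hg⟩ := this
  exact ⟨g, hg⟩

end Pool.Agent.Results.MP_f617a8_an.CNU
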