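import Mathlib
import Pool.Agent.P.MP_f617a8_an.Wold3

/-! The sine-to-cosine re-expansion operator on `L²(0,π)` is the unilateral shift in an explicit
orthonormal basis of Meixner-Pollaczek polynomials in `log cot (t/2)`. -/

open MeasureTheory Set
open scoped Real InnerProductSpace

namespace Pool.Agent.Results.MP_f617a8_an.ExplicitWold

theorem memLp_of_continuous (F : ℝ → ℂ) (hF : Continuous F) :
    MemLp F 2 (volume.restrict (Ioo (0 : ℝ) π)) := by
  obtain ⟨C, hC⟩ := (isCompact_Icc (a := (0 : ℝ)) (b := π)).exists_bound_of_continuousOn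
    hF.continuousOn
  refine MemLp.of_bound hF.aestronglyMeasurable C ?_
  filter_upwards [ae_restrict_mem measurableSet_Ioo] with t ht
  exact hC t (Ioo_subset_Icc_self ht)

/-- The class in `L²(0,π)` of a continuous function. -/
noncomputable def toL2 (F : ℝ → ℂ) (hF : Continuous F) :
    Lp ℂ 2 (volume.restrict (Ioo (0 : ℝ) π)) :=
  MemLp.toLp F (memLp_of_continuous F hF)

/-- `s_n(t) = √(2/π) sin (n t)`, `n ≥ 1`. -/
noncomputable def s (n : ℕ+) : Lp ℂ 2 (volume.restrict (Ioo (0 : ℝ) π)) :=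
  toL2 (fun t => ((√(2 / π) * Real.sin (n * t) : ℝ) : ℂ)) (by fun_prop)

/-- `c_n(t) = √(2/π) cos (n t)`, `n ≥ 1`. -/
noncomputable def c (n : ℕ+) : Lp ℂ 2 (volume.restrict (Ioo (0 : ℝ) π)) :=
  toL2 (fun t => ((√(2 / π) * Real.cos (n * t) : ℝ) : ℂ)) (by fun_prop)

/-- The Meixner-Pollaczek polynomials with parameters `λ = 1/2`, `φ = π/2`: `p_0 = 1`,
`p_1 = 2 x`, `(n + 2) p_{n+2} = 2 x p_{n+1} - (n + 1) p_n`. -/
noncomputable def mp : ℕ → ℝ → ℝ
  | 0, _ => 1
  | 1, x => 2 * x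
  | n + 2, x => (2 * x * mp (n + 1) x - (n + 1) * mp n x) / (n + 2)

/-- The bounded operator `P f = ∑ ⟨f, s_n⟩ c_n` is the unilateral shift `b_n ↦ b_{n+1}` in the
orthonormal basis `b_n(t) = p_n (log (cot (t / 2)) / π) / √π` of `L²(0,π)`. -/
theorem result :
    ∃ P : Lp ℂ 2 (volume.restrict (Ioo (0 : ℝ) π)) →L[ℂ]
        Lp ℂ 2 (volume.restrict (Ioo (0 : ℝ) π)),
      (∀ f, HasSum (fun n : ℕ+ => inner ℂ (s n) f • c n) (P f)) ∧
      ∃ b : HilbertBasis ℕ ℂ (Lp ℂ 2 (volume.restrict (Ioo (0 : ℝ) π))), ∀ n : ℕ,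
        (b n =ᵐ[volume.restrict (Ioo (0 : ℝ) π)]
          fun t => ((mp n (Real.log (Real.cot (t / 2)) / π) / √π : ℝ) : ℂ)) ∧
        P (b n) = b (n + 1) :=
  Pool.Agent.P.MP_f617a8_an.wold_basis s c
    (fun _ => MemLp.coeFn_toLp (memLp_of_continuous _ (by fun_prop)))
    (fun _ => MemLp.coeFn_toLp (memLp_of_continuous _ (by fun_prop)))
    mp (fun _ => by rw [mp]) (fun _ => by rw [mp]) (fun _ _ => by rw [mp])

end Pool.Agent.Results.MP_f617a8_an.ExplicitWold
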